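import Pool.Agent.Y60.Gd
import Pool.Agent.H463R3.PSLn
import Pool.Agent.Results.MP_dc7914_al.IsotypyDegrees

/-!
# A quasi-simple group of Lie type with a decomposition matrix that is not unitriangular

The group is `2.L₃(4)`, of order `40320`, the prime is `3` (so this is not the defining
characteristic).  The definitions of irreducible Brauer characters, of the decomposition numbers,
of `IBr(B)` and of unitriangularity are in `Pool.Agent.Y60.Def`, those of irreducible characters
and of blocks in `Pool.Agent.H254R3.IN.Defs`.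
-/

open scoped MatrixGroups
open Pool.Agent.H254R3.IN Pool.Agent.Y60

namespace Pool.Agent.Results.MP_5c3aa2_al.NotUnitriangular

/-- There is a finite perfect group `G` of order `40320` such that `G / Z(G)` is simple and
isomorphic to `PSL(3, F)` for a field `F` with four elements, and such that for every
`3`-modular system given by a valuation subring `O` of `ℂ` with `3` in its maximal ideal (these
exist) the group `G` has a `3`-block `B` whose decomposition matrix is not unitriangular. -/
theorem result :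
    ∃ (G : Type) (_ : Group G) (_ : Finite G),
      commutator G = ⊤ ∧ IsSimpleGroup (G ⧸ Subgroup.center G) ∧
      (∃ (F : Type) (_ : Field F), Nat.card F = 4 ∧
        Nonempty ((G ⧸ Subgroup.center G) ≃* PSL(3, F))) ∧
      Nat.card G = 40320 ∧
      (∃ O : ValuationSubring ℂ, (3 : ℂ) ∈ O.nonunits) ∧
      ∀ O : ValuationSubring ℂ, (3 : ℂ) ∈ O.nonunits →
        {φ : G → ℂ | IsIBr 3 O φ}.Finite ∧
        (∃ d : (G → ℂ) → (G → ℂ) → ℕ, IsDecomp 3 O d) ∧
        (∀ d d' : (G → ℂ) → (G → ℂ) → ℕ, IsDecomp 3 O d → IsDecomp 3 O d' →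
          ∀ χ φ : G → ℂ, IsIrr χ → IsIBr 3 O φ → d χ φ = d' χ φ) ∧
        ∃ B : Set (G → ℂ), IsBlock O B ∧
          ∀ d : (G → ℂ) → (G → ℂ) → ℕ, IsDecomp 3 O d → ¬ Unitriangular 3 O d B := by
  obtain ⟨⟨e⟩, hperf, hcard⟩ := Pool.Agent.Y903.LT34.job
  refine ⟨GG, inferInstance, inferInstance, hperf, ?_, ⟨F4, inferInstance, ?_, ⟨e⟩⟩, hcard, ?_, ?_⟩
  · haveI := Pool.Agent.H463R3.PSLn.isSimpleGroup_PSL (ι := Fin 3) (F := F4) (by simp)
    exact e.isSimpleGroup
  · rw [Nat.card_eq_fintype_card, F4.card]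
  · haveI : Fact (Nat.Prime 3) := ⟨by norm_num⟩
    have h := Pool.Agent.Results.MP_dc7914_al.IsotypyDegrees.exists_place 3
    exact_mod_cast h
  · intro O hO
    have hp : ((3 : ℕ) : ℂ) ∈ O.nonunits := by exact_mod_cast hO
    haveI : Fact (Nat.Prime 3) := ⟨by norm_num⟩
    obtain ⟨d0, hd0, _⟩ := exists_decomp (G := GG) hp
    exact ⟨ibr_finite hp, ⟨d0, hd0⟩,
      fun d d' hd hd' χ φ hχ hφ => decomp_unique hp hd hd' χ hχ φ hφ, main_contra gdata hp⟩

end Pool.Agent.Results.MP_5c3aa2_al.NotUnitriangular
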